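import Pool.Agent.Helper73.MI.Stmts

/-!
# Propagation of the minimum (project MP_a2630c_MI, row PRP)
-/

open MeasureTheory Set Metric Real Filter Topology
open scoped RealInnerProductSpace ENNReal

universe w

namespace Pool.Agent.Helper52.MI
open Pool.Agent.Helper73.MI

/-- connectedness of an interval -/
theorem conn {ψ x : ℝ → ℝ} (hψ : Continuous ψ) (pos : ∀ r, 0 < x r) {A B : ℝ}
    (hAB : A ≤ B) (h1 : ψ B < x B) (h2 : -x A < ψ A) : ∃ r ∈ Icc A B, |ψ r| < x r := by
  by_cases c1 : -x B < ψ B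
  · exact ⟨B, right_mem_Icc.2 hAB, abs_lt.2 ⟨c1, h1⟩⟩
  by_cases c2 : ψ A < x A
  · exact ⟨A, left_mem_Icc.2 hAB, abs_lt.2 ⟨h2, c2⟩⟩
  push Not at c1 c2
  have h3 : (0:ℝ) ∈ Icc (ψ B) (ψ A) := ⟨by linarith [pos B], by linarith [pos A]⟩
  obtain ⟨r, hr, hr0⟩ := intermediate_value_Icc' hAB hψ.continuousOn h3
  exact ⟨r, hr, by rw [hr0, abs_zero]; exact pos r⟩

/-- the same with an interior point -/
theorem conn' {ψ x : ℝ → ℝ} (hψ : Continuous ψ) (hx : Continuous x) (pos : ∀ r, 0 < x r) {A B : ℝ}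
    (hAB : A < B) (h1 : ψ B < x B) (h2 : -x A < ψ A) : ∃ r ∈ Ioo A B, |ψ r| < x r := by
  obtain ⟨r, hr, h⟩ := conn hψ pos hAB.le h1 h2
  have h3 : IsOpen {r | |ψ r| < x r} := isOpen_lt hψ.abs hx
  have h4 : r ∈ closure (Ioo A B) := by rw [closure_Ioo hAB.ne]; exact hr
  obtain ⟨s, hs1, hs2⟩ := mem_closure_iff.1 h4 _ h3 h
  exact ⟨s, hs2, hs1⟩

section
variable {V : Type w} [NormedAddCommGroup V] [InnerProductSpace ℝ V] [FiniteDimensional ℝ V]
  [MeasurableSpace V] [BorelSpace V] {D : Set V} {F : V → ℝ} {Y : V → V} {ξ τ : V → ℝ}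
  {P : V → V →L[ℝ] V} {lam : ℝ} {vv : V → V} {Pi : V → V →L[ℝ] V}

theorem contY (h : MD D F Y ξ τ P lam) : Continuous Y :=
  continuous_iff_continuousAt.2 fun v => (h.Yder v).continuousAt

theorem contX (h : MD D F Y ξ τ P lam) : Continuous ξ :=
  continuous_iff_continuousAt.2 fun v => (h.xder v).continuousAt

theorem mem_Sv (h : MD D F Y ξ τ P lam) {u v : V} (hc : |τ u - inner ℝ u (Y v)| < ξ v) :
    Y v ∈ Sv F τ u := by
  show 0 < F (Y v) - (τ u - inner ℝ u (Y v)) ^ 2
  rw [h.FY v, sub_pos]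
  exact sq_lt_sq' (by linarith [(abs_lt.1 hc).1]) (abs_lt.1 hc).2

theorem Sv_sub (h : MD D F Y ξ τ P lam) (u : V) : Sv F τ u ⊆ D := by
  intro y hy
  by_contra hD
  have h1 : 0 < F y - (τ u - inner ℝ u y) ^ 2 := hy
  rw [h.Fzero y hD] at h1
  nlinarith [sq_nonneg (τ u - inner ℝ u y)]

theorem contW (h : MD D F Y ξ τ P lam) (u : V) : Continuous (Wf F τ u) := by
  unfold Wf
  have := h.Fcont
  fun_prop

theorem contQ (h : MD D F Y ξ τ P lam) (hi : INV D Y P vv Pi) (a : V) :
    Continuous (QQ ξ Pi a) := by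
  unfold QQ
  have h1 := contX h
  have h2 : Continuous fun v => Pi v a := hi.Pic.clm_apply continuous_const
  fun_prop

/-- spreading of the minimum -/
theorem spread (hcsi : S_csi.{w}) (h : MD D F Y ξ τ P lam) (hi : INV D Y P vv Pi) (a : V) {m : ℝ}
    (hm : ∀ v, m ≤ QQ ξ Pi a v) {u v : V} (hu : QQ ξ Pi a u = m) (hv : Y v ∈ Sv F τ u) :
    QQ ξ Pi a v = m := by
  by_contra hne
  have hlt : m < QQ ξ Pi a v := lt_of_le_of_ne (hm v) (Ne.symm hne)
  obtain ⟨hint, hle⟩ := hcsi h hi a u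
  rw [hu] at hle
  have hopen : IsOpen (Sv F τ u) := isOpen_lt continuous_const (contW h u)
  have hW : IntegrableOn (Wf F τ u) (Sv F τ u) := by
    by_contra hn
    have h1 := h.mom u
    rw [integral_undef hn] at h1
    have := h.xpos u
    have := h.lpos
    nlinarith [mul_pos h.lpos (h.xpos u)]
  set g : V → ℝ := fun y => Wf F τ u y * QQ ξ Pi a (vv y) - m * Wf F τ u y with hg
  have hgint : IntegrableOn g (Sv F τ u) := hint.sub (hW.const_mul m)
  have hg0 : ∀ y ∈ Sv F τ u, 0 ≤ g y := by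
    intro y hy
    have h1 : 0 < Wf F τ u y := hy
    have h2 := hm (vv y)
    rw [hg]
    simp only
    nlinarith
  have hgle : ∫ y in Sv F τ u, g y ≤ 0 := by
    rw [hg, integral_sub hint (hW.const_mul m), integral_const_mul]
    linarith
  have hg00 : 0 ≤ᵐ[volume.restrict (Sv F τ u)] g := by
    filter_upwards [ae_restrict_mem hopen.measurableSet] with y hy using hg0 y hy
  have hgz : ∫ y in Sv F τ u, g y = 0 :=
    le_antisymm hgle (integral_nonneg_of_ae hg00)
  have hae : g =ᵐ[volume.restrict (Sv F τ u)] 0 :=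
    (integral_eq_zero_iff_of_nonneg_ae hg00 hgint).1 hgz
  -- `g` is positive near `Y v`
  have hcv : ContinuousAt vv (Y v) := (hi.der v).continuousAt
  have hgc : ContinuousAt g (Y v) := by
    have h1 : ContinuousAt (fun y => QQ ξ Pi a (vv y)) (Y v) :=
      ContinuousAt.comp (g := QQ ξ Pi a) (contQ h hi a).continuousAt hcv
    exact ((contW h u).continuousAt.mul h1).sub ((contW h u).continuousAt.const_mul m)
  have hgp : 0 < g (Y v) := by
    have h1 : 0 < Wf F τ u (Y v) := hv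
    rw [hg]
    simp only
    rw [hi.left v]
    nlinarith
  have hev : ∀ᶠ y in 𝓝 (Y v), 0 < g y ∧ y ∈ Sv F τ u :=
    (hgc.eventually (lt_mem_nhds hgp)).and (hopen.mem_nhds hv)
  have hpos : 0 < volume {y | 0 < g y ∧ y ∈ Sv F τ u} :=
    Measure.measure_pos_of_mem_nhds volume hev
  have hz : volume {y | 0 < g y ∧ y ∈ Sv F τ u} = 0 := by
    have h1 := (ae_restrict_iff' hopen.measurableSet).1 hae
    refine measure_mono_null ?_ h1
    intro y hy
    simp only [mem_ofPred_eq, Classical.not_imp, mem_compl_iff]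
    exact ⟨hy.2, hy.1.ne'⟩
  exact hpos.ne' hz

end

/-- **(PRP)** -/
theorem prp (hcsi : S_csi.{w}) (hatt : S_att.{w}) : S_prp.{w} := by
  intro V _ _ _ _ _ D F Y ξ τ P lam vv Pi h hi a
  obtain ⟨v0, hv0⟩ := hatt h hi a
  set m := QQ ξ Pi a v0 with hm
  have hqc := contQ h hi a
  have hYc := contY h
  have hξc := contX h
  have hτc := h.tcont
  have hsp : ∀ {u v : V}, QQ ξ Pi a u = m → |τ u - inner ℝ u (Y v)| < ξ v → QQ ξ Pi a v = m :=
    fun hu hc => spread hcsi h hi a hv0 hu (mem_Sv h hc)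
  -- `0` is in the set
  have hZ : IsClosed {v | QQ ξ Pi a v = m} := isClosed_eq hqc continuous_const
  have h0 : QQ ξ Pi a 0 = m := by
    obtain ⟨z, hz, hd⟩ := hZ.exists_infDist_eq_dist ⟨v0, rfl⟩ (0 : V)
    by_contra hne
    have hz0 : z ≠ 0 := by rintro rfl; exact hne hz
    have key := conn' (ψ := fun r : ℝ => τ z - inner ℝ z (Y (r • z)))
      (x := fun r : ℝ => ξ (r • z)) (by fun_prop) (by fun_prop) (fun r => h.xpos _)
      (A := -1) (B := 1) (by norm_num)
      (by simp only [one_smul]; linarith [h.tup z])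
      (by
        have h1 := h.tlo z
        simp only [neg_smul, one_smul]
        rw [inner_neg_left] at h1
        linarith)
    obtain ⟨r, hr, hr1⟩ := key
    have h2 : QQ ξ Pi a (r • z) = m := hsp hz hr1
    have h3 : infDist (0:V) {v | QQ ξ Pi a v = m} ≤ dist (0:V) (r • z) := infDist_le_dist_of_mem h2
    rw [hd, dist_zero_left, dist_zero_left, norm_smul, Real.norm_eq_abs] at h3
    have h4 : |r| < 1 := abs_lt.2 hr
    have h5 : 0 < ‖z‖ := norm_pos_iff.2 hz0
    nlinarith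
  -- extension
  have hext : ∀ (v : V) (R : ℝ), 0 ≤ R → (∀ ρ ∈ Icc (-R) R, QQ ξ Pi a (ρ • v) = m) →
      ∀ᶠ r in 𝓝 R, QQ ξ Pi a (r • v) = m := by
    intro v R hR hin
    have e1 : ∀ᶠ r in 𝓝 R, 0 < ξ (r • v) + inner ℝ (R • v) (Y (r • v)) - τ (R • v) := by
      have hc : Continuous fun r : ℝ => ξ (r • v) + inner ℝ (R • v) (Y (r • v)) - τ (R • v) := by
        fun_prop
      exact hc.continuousAt.eventually (lt_mem_nhds (by
        have := h.tup (R • v)
        show 0 < ξ (R • v) + inner ℝ (R • v) (Y (R • v)) - τ (R • v)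
        linarith))
    have e2 : ∀ᶠ r in 𝓝 R, 0 < τ (-R • v) - inner ℝ (-R • v) (Y (r • v)) + ξ (r • v) := by
      have hc : Continuous fun r : ℝ => τ (-R • v) - inner ℝ (-R • v) (Y (r • v)) + ξ (r • v) := by
        fun_prop
      exact hc.continuousAt.eventually (lt_mem_nhds (by
        have := h.tlo (-R • v)
        show 0 < τ (-R • v) - inner ℝ (-R • v) (Y (R • v)) + ξ (R • v)
        rw [← neg_smul, neg_neg] at this
        rw [neg_smul, inner_neg_left]
        rw [neg_smul] at this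
        linarith))
    filter_upwards [e1, e2] with r h1 h2
    obtain ⟨ρ, hρ, hρ1⟩ := conn (ψ := fun ρ : ℝ => τ (ρ • v) - inner ℝ (ρ • v) (Y (r • v)))
      (x := fun _ => ξ (r • v)) (by fun_prop) (fun _ => h.xpos _)
      (A := -R) (B := R) (by linarith) (by linarith) (by linarith)
    exact hsp (hin ρ hρ) hρ1
  -- conclusion
  intro v
  rw [h0]
  set s : Set ℝ := {R | ∀ c ∈ Icc (-1:ℝ) 1, QQ ξ Pi a ((c * R) • v) = m} with hs
  have hsc : IsClosed s := by
    have : s = ⋂ c ∈ Icc (-1:ℝ) 1, {R | QQ ξ Pi a ((c * R) • v) = m} := by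
      ext R; simp [hs]
    rw [this]
    refine isClosed_biInter fun c _ => isClosed_eq ?_ continuous_const
    exact hqc.comp (by fun_prop)
  have hin : ∀ R ∈ s, 0 ≤ R → ∀ ρ ∈ Icc (-R) R, QQ ξ Pi a (ρ • v) = m := by
    intro R hRs hR ρ hρ
    rcases hR.eq_or_lt with h1 | h1
    · have : ρ = 0 := by
        rw [← h1, neg_zero] at hρ
        exact le_antisymm hρ.2 hρ.1
      rw [this, zero_smul]; exact h0
    · have h2 := hRs (ρ / R) ⟨by rw [le_div_iff₀ h1]; linarith [hρ.1],
        by rw [div_le_iff₀ h1]; linarith [hρ.2]⟩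
      rwa [div_mul_cancel₀ _ h1.ne'] at h2
  have hsub : Icc (0:ℝ) 1 ⊆ s := by
    refine IsClosed.Icc_subset_of_forall_mem_nhdsWithin (hsc.inter isClosed_Icc) ?_ ?_
    · intro c _
      rw [mul_zero, zero_smul]; exact h0
    · rintro R ⟨hRs, hR⟩
      have hI := hin R hRs hR.1
      have f1 := hext v R hR.1 hI
      have f2 := hext (-v) R hR.1 (fun ρ hρ => by
        rw [smul_neg, ← neg_smul]
        exact hI (-ρ) ⟨by linarith [hρ.2], by linarith [hρ.1]⟩)
      obtain ⟨ε, hε, hball⟩ := Metric.eventually_nhds_iff.1 (f1.and f2)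
      have : ∀ᶠ R' in 𝓝[>] R, R < R' ∧ dist R' R < ε := by
        filter_upwards [self_mem_nhdsWithin, nhdsWithin_le_nhds (Metric.ball_mem_nhds R hε)]
          with R' h1 h2 using ⟨h1, h2⟩
      filter_upwards [this] with R' hR' c hc
      rw [Real.dist_eq, abs_of_pos (by linarith [hR'.1])] at hR'
      by_cases c1 : c * R' ≤ R
      · by_cases c2 : -R ≤ c * R'
        · exact hI _ ⟨c2, c1⟩
        · push Not at c2
          have h3 : -R' ≤ c * R' := by nlinarith [hc.1, hR.1]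
          have h4 := (hball (y := -(c * R')) (by
            rw [Real.dist_eq, abs_of_pos (by linarith)]; linarith [hR'.2])).2
          rwa [smul_neg, ← neg_smul, neg_neg] at h4
      · push Not at c1
        have h3 : c * R' ≤ R' := by nlinarith [hc.2, hR.1]
        exact (hball (y := c * R') (by
            rw [Real.dist_eq, abs_of_pos (by linarith)]; linarith [hR'.2])).1
  have h1 := hsub (right_mem_Icc.2 zero_le_one) 1 ⟨by norm_num, le_rfl⟩
  rwa [mul_one, one_smul] at h1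

end Pool.Agent.Helper52.MI
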